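import Mathlib

/-!
MP_798444_co, Q1: there is an infinite connected locally finite vertex-transitive
simple graph on which no integer-valued harmonic function is injective.
The graph is the lexicographic product of the two-way infinite path with the
five-cycle: vertices `(n, i)` with `n` an integer and `i` a residue modulo five,
and `(n, i)` adjacent to `(m, j)` exactly when `|n - m| = 1`, or `n = m` and
`i - j = 1` or `j - i = 1`.  It has no twins (no two vertices have the same open
or the same closed neighbourhood).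
-/

namespace Pool.Agent.Results.MP_798444_co.NoInjective

/-- The lexicographic product of the two-way infinite path with the five-cycle. -/
def LP : SimpleGraph (ℤ × ZMod 5) where
  Adj p q := p.1 = q.1 + 1 ∨ q.1 = p.1 + 1 ∨ (p.1 = q.1 ∧ (p.2 = q.2 + 1 ∨ q.2 = p.2 + 1))
  symm := ⟨by
    intro p q h
    rcases h with h | h | ⟨h, h' | h'⟩
    · exact Or.inr (Or.inl h)
    · exact Or.inl h
    · exact Or.inr (Or.inr ⟨h.symm, Or.inr h'⟩)
    · exact Or.inr (Or.inr ⟨h.symm, Or.inl h'⟩)⟩
  loopless := ⟨by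
    intro p h
    have key : ∀ a : ZMod 5, a ≠ a + 1 := by decide
    rcases h with h | h | ⟨_, h | h⟩
    · omega
    · omega
    · exact key _ h
    · exact key _ h⟩

theorem adj_iff (p q : ℤ × ZMod 5) : LP.Adj p q ↔
    (p.1 = q.1 + 1 ∨ q.1 = p.1 + 1 ∨ (p.1 = q.1 ∧ (p.2 = q.2 + 1 ∨ q.2 = p.2 + 1))) := Iff.rfl

/-- The neighbours of a vertex, as a finite set. -/
def N (p : ℤ × ZMod 5) : Finset (ℤ × ZMod 5) :=
  ((Finset.univ.image fun j : ZMod 5 => (p.1 + 1, j)) ∪
    (Finset.univ.image fun j : ZMod 5 => (p.1 - 1, j))) ∪ {(p.1, p.2 + 1), (p.1, p.2 - 1)}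

theorem mem_N (p q : ℤ × ZMod 5) : q ∈ N p ↔ q ∈ LP.neighborSet p := by
  rw [SimpleGraph.mem_neighborSet, adj_iff]
  obtain ⟨m, i⟩ := p
  obtain ⟨n, j⟩ := q
  simp only [N, Finset.mem_union, Finset.mem_image, Finset.mem_univ, true_and, Prod.mk.injEq,
    Finset.mem_insert, Finset.mem_singleton]
  constructor
  · rintro ((⟨k, h, _⟩ | ⟨k, h, _⟩) | (⟨h, h'⟩ | ⟨h, h'⟩))
    · right; left; omega
    · left; omega
    · right; right; exact ⟨h.symm, Or.inr h'⟩
    · right; right; refine ⟨h.symm, Or.inl ?_⟩; rw [h']; ring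
  · rintro (h | h | ⟨h, h' | h'⟩)
    · left; right; exact ⟨j, by omega, rfl⟩
    · left; left; exact ⟨j, by omega, rfl⟩
    · right; right; refine ⟨h.symm, ?_⟩; rw [h']; ring
    · right; left; exact ⟨h.symm, h'⟩

theorem sum_N (f : ℤ × ZMod 5 → ℤ) (p : ℤ × ZMod 5) :
    ∑ u ∈ N p, f u = (∑ j : ZMod 5, f (p.1 + 1, j) + ∑ j : ZMod 5, f (p.1 - 1, j)) +
      (f (p.1, p.2 + 1) + f (p.1, p.2 - 1)) := by
  have key : ∀ a : ZMod 5, a + 1 ≠ a - 1 := by decide
  rw [N, Finset.sum_union, Finset.sum_union, Finset.sum_image, Finset.sum_image, Finset.sum_pair]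
  · intro h
    exact key _ (Prod.mk.inj h).2
  · intro a _ b _ h
    exact (Prod.mk.inj h).2
  · intro a _ b _ h
    exact (Prod.mk.inj h).2
  · rw [Finset.disjoint_left]
    intro a ha hb
    simp only [Finset.mem_image, Finset.mem_univ, true_and] at ha hb
    obtain ⟨x, rfl⟩ := ha
    obtain ⟨y, hy⟩ := hb
    have := (Prod.mk.inj hy).1
    omega
  · rw [Finset.disjoint_left]
    intro a ha hb
    simp only [Finset.mem_union, Finset.mem_image, Finset.mem_univ, true_and, Finset.mem_insert,
      Finset.mem_singleton] at ha hb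
    rcases ha with ⟨x, rfl⟩ | ⟨x, rfl⟩ <;> rcases hb with hb | hb <;>
      (have := (Prod.mk.inj hb).1; omega)

theorem connected : LP.Connected := by
  have step : ∀ (m : ℤ) (a b : ZMod 5), LP.Reachable (m, a) (m + 1, b) := by
    intro m a b
    exact SimpleGraph.Adj.reachable (Or.inr (Or.inl rfl))
  have same : ∀ (m : ℤ) (a b : ZMod 5), LP.Reachable (m, a) (m, b) := by
    intro m a b
    exact (step m a 0).trans (step m b 0).symm
  have up : ∀ (k : ℕ) (m : ℤ) (a b : ZMod 5), LP.Reachable (m, a) (m + k, b) := by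
    intro k
    induction k with
    | zero =>
      intro m a b
      simpa using same m a b
    | succ k ih =>
      intro m a b
      have h3 := (ih m a 0).trans (step (m + k) 0 b)
      have e : m + ((k + 1 : ℕ) : ℤ) = m + k + 1 := by push_cast; ring
      rw [e]
      exact h3
  have reach : ∀ (n : ℤ) (j : ZMod 5), LP.Reachable (0, 0) (n, j) := by
    intro n j
    rcases Int.eq_nat_or_neg n with ⟨k, hk | hk⟩
    · subst hk
      have h := up k 0 0 j
      simpa using h
    · subst hk
      have h := up k (-(k : ℤ)) j 0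
      have e : -(k : ℤ) + k = 0 := by ring
      rw [e] at h
      exact h.symm
  have : Nonempty (ℤ × ZMod 5) := ⟨(0, 0)⟩
  refine SimpleGraph.Connected.mk ?_
  intro p q
  obtain ⟨n, i⟩ := p
  obtain ⟨m, j⟩ := q
  exact (reach n i).symm.trans (reach m j)

/-- Translations act transitively. -/
theorem transitive (v w : ℤ × ZMod 5) : ∃ φ : LP ≃g LP, φ v = w := by
  refine ⟨⟨⟨fun p => (p.1 + (w.1 - v.1), p.2 + (w.2 - v.2)),
      fun p => (p.1 - (w.1 - v.1), p.2 - (w.2 - v.2)), ?_, ?_⟩, ?_⟩, ?_⟩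
  · intro p
    ext
    · simp
    · simp
  · intro p
    ext
    · simp
    · simp
  · intro p q
    simp only [Equiv.coe_fn_mk, adj_iff]
    constructor
    · rintro (h | h | ⟨h, h' | h'⟩)
      · left; omega
      · right; left; omega
      · right; right; refine ⟨by omega, Or.inl ?_⟩
        have e : p.2 + (w.2 - v.2) = (q.2 + 1) + (w.2 - v.2) := by rw [h']; ring
        exact add_right_cancel e
      · right; right; refine ⟨by omega, Or.inr ?_⟩
        have e : q.2 + (w.2 - v.2) = (p.2 + 1) + (w.2 - v.2) := by rw [h']; ring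
        exact add_right_cancel e
    · rintro (h | h | ⟨h, h' | h'⟩)
      · left; omega
      · right; left; omega
      · right; right; refine ⟨by omega, Or.inl ?_⟩
        rw [h']; ring
      · right; right; refine ⟨by omega, Or.inr ?_⟩
        rw [h']; ring
  · ext
    · simp
    · simp

theorem open_twin_free (v w : ℤ × ZMod 5) (h : v ≠ w) :
    LP.neighborSet v ≠ LP.neighborSet w := by
  intro e
  apply h
  obtain ⟨m, i⟩ := v
  obtain ⟨n, j⟩ := w
  have h1 : ((m + 1, 0) : ℤ × ZMod 5) ∈ LP.neighborSet (n, j) := by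
    rw [← e]; exact Or.inr (Or.inl rfl)
  have h2 : ((m - 1, 0) : ℤ × ZMod 5) ∈ LP.neighborSet (n, j) := by
    rw [← e]; left; simp
  have h3 : ((m, i + 1) : ℤ × ZMod 5) ∈ LP.neighborSet (n, j) := by
    rw [← e]; exact Or.inr (Or.inr ⟨rfl, Or.inr rfl⟩)
  have h4 : ((m, i - 1) : ℤ × ZMod 5) ∈ LP.neighborSet (n, j) := by
    rw [← e]; refine Or.inr (Or.inr ⟨rfl, Or.inl ?_⟩); simp
  rw [SimpleGraph.mem_neighborSet, adj_iff] at h1 h2 h3 h4
  have hmn : m = n := by
    rcases h1 with h1 | h1 | h1 <;> rcases h2 with h2 | h2 | h2 <;> simp only at h1 h2 <;> omega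
  subst hmn
  have h3' : j = i + 1 + 1 ∨ i + 1 = j + 1 := by
    rcases h3 with h3 | h3 | h3
    · simp only at h3; omega
    · simp only at h3; omega
    · exact h3.2
  have h4' : j = i - 1 + 1 ∨ i - 1 = j + 1 := by
    rcases h4 with h4 | h4 | h4
    · simp only at h4; omega
    · simp only at h4; omega
    · exact h4.2
  have key : ∀ i j : ZMod 5, (j = i + 1 + 1 ∨ i + 1 = j + 1) → (j = i - 1 + 1 ∨ i - 1 = j + 1) →
      i = j := by decide
  rw [key i j h3' h4']

theorem closed_twin_free (v w : ℤ × ZMod 5) (h : v ≠ w) :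
    insert v (LP.neighborSet v) ≠ insert w (LP.neighborSet w) := by
  intro e
  apply h
  obtain ⟨m, i⟩ := v
  obtain ⟨n, j⟩ := w
  have h1 : ((m + 1, 0) : ℤ × ZMod 5) ∈ insert (n, j) (LP.neighborSet (n, j)) := by
    rw [← e]; exact Or.inr (Or.inr (Or.inl rfl))
  have h2 : ((m - 1, 0) : ℤ × ZMod 5) ∈ insert (n, j) (LP.neighborSet (n, j)) := by
    rw [← e]; right; left; simp
  have h3 : ((m, i + 1) : ℤ × ZMod 5) ∈ insert (n, j) (LP.neighborSet (n, j)) := by
    rw [← e]; exact Or.inr (Or.inr (Or.inr ⟨rfl, Or.inr rfl⟩))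
  have h4 : ((m, i - 1) : ℤ × ZMod 5) ∈ insert (n, j) (LP.neighborSet (n, j)) := by
    rw [← e]; refine Or.inr (Or.inr (Or.inr ⟨rfl, Or.inl ?_⟩)); simp
  rw [Set.mem_insert_iff, SimpleGraph.mem_neighborSet, adj_iff, Prod.mk.injEq] at h1 h2 h3 h4
  have hmn : m = n := by
    rcases h1 with h1 | h1 | h1 | h1 <;> rcases h2 with h2 | h2 | h2 | h2 <;>
      (try simp only at h1) <;> (try simp only at h2) <;> omega
  subst hmn
  have h3' : i + 1 = j ∨ j = i + 1 + 1 ∨ i + 1 = j + 1 := by
    rcases h3 with h3 | h3 | h3 | h3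
    · exact Or.inl h3.2
    · simp only at h3; omega
    · simp only at h3; omega
    · exact Or.inr h3.2
  have h4' : i - 1 = j ∨ j = i - 1 + 1 ∨ i - 1 = j + 1 := by
    rcases h4 with h4 | h4 | h4 | h4
    · exact Or.inl h4.2
    · simp only at h4; omega
    · simp only at h4; omega
    · exact Or.inr h4.2
  have key : ∀ i j : ZMod 5, (i + 1 = j ∨ j = i + 1 + 1 ∨ i + 1 = j + 1) →
      (i - 1 = j ∨ j = i - 1 + 1 ∨ i - 1 = j + 1) → i = j := by decide
  rw [key i j h3' h4']

/-- **Answer to Q1 (negative).** There is an infinite, connected, locally finite,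
vertex-transitive simple graph, without twins, on which every integer-valued
harmonic function takes some value at two distinct vertices. -/
theorem result :
    ∃ (V : Type) (G : SimpleGraph V) (_ : G.LocallyFinite),
      Infinite V ∧ G.Connected ∧ (∀ v w : V, ∃ φ : G ≃g G, φ v = w) ∧
      (∀ v w : V, v ≠ w → G.neighborSet v ≠ G.neighborSet w ∧
        insert v (G.neighborSet v) ≠ insert w (G.neighborSet w)) ∧
      ∀ f : V → ℤ, (∀ v : V, (G.degree v : ℤ) * f v = ∑ u ∈ G.neighborFinset v, f u) →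
        ∃ v w : V, v ≠ w ∧ f v = f w := by
  refine ⟨ℤ × ZMod 5, LP, fun p => Fintype.ofFinset (N p) (mem_N p), ?_, connected, transitive,
    fun v w h => ⟨open_twin_free v w h, closed_twin_free v w h⟩, ?_⟩
  · infer_instance
  · intro f hf
    let I : LP.LocallyFinite := fun p => Fintype.ofFinset (N p) (mem_N p)
    have hN : ∀ p, LP.neighborFinset p = N p := by
      intro p
      ext q
      rw [SimpleGraph.mem_neighborFinset, mem_N, SimpleGraph.mem_neighborSet]
    have hd : ∀ p, (LP.degree p : ℤ) = 12 := by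
      intro p
      have h1 := sum_N (fun _ => 1) p
      rw [← SimpleGraph.card_neighborFinset_eq_degree, hN]
      simp only [Finset.sum_const, Finset.card_univ, ZMod.card, nsmul_eq_mul, mul_one] at h1
      push_cast at h1
      linarith
    have hf' : ∀ p : ℤ × ZMod 5, 12 * f p =
        (∑ j : ZMod 5, f (p.1 + 1, j) + ∑ j : ZMod 5, f (p.1 - 1, j)) +
      (f (p.1, p.2 + 1) + f (p.1, p.2 - 1)) := by
      intro p
      have h := hf p
      rw [← sum_N, ← hN, ← h, ← hd p]
    have h0 := hf' (0, 0)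
    have h1 := hf' (0, 1)
    have h2 := hf' (0, 2)
    have h3 := hf' (0, 3)
    have h4 := hf' (0, 4)
    simp only at h0 h1 h2 h3 h4
    have e0 : (0 : ZMod 5) + 1 = 1 := by decide
    have e1 : (1 : ZMod 5) + 1 = 2 := by decide
    have e2 : (2 : ZMod 5) + 1 = 3 := by decide
    have e3 : (3 : ZMod 5) + 1 = 4 := by decide
    have e4 : (4 : ZMod 5) + 1 = 0 := by decide
    have g0 : (0 : ZMod 5) - 1 = 4 := by decide
    have g1 : (1 : ZMod 5) - 1 = 0 := by decide
    have g2 : (2 : ZMod 5) - 1 = 1 := by decide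
    have g3 : (3 : ZMod 5) - 1 = 2 := by decide
    have g4 : (4 : ZMod 5) - 1 = 3 := by decide
    rw [e0, g0] at h0
    rw [e1, g1] at h1
    rw [e2, g2] at h2
    rw [e3, g3] at h3
    rw [e4, g4] at h4
    refine ⟨(0, 0), (0, 1), ?_, ?_⟩
    · intro h
      have := (Prod.mk.inj h).2
      revert this
      decide
    · linarith

end Pool.Agent.Results.MP_798444_co.NoInjective
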